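import Mathlib
import Pool.Agent.Lib.H73.Main
import Pool.Agent.Lib.H73.HC

/-!
MP_a1472e_al, Q1: in a group with the minimal condition on centralizers a normal Engel subset
generates a locally nilpotent subgroup. Here the subset need only be normalised by its own
elements, and the subgroup is also shown to be hypercentral.
-/

set_option autoImplicit false

universe u

namespace Pool.Agent.Results.MP_a1472e_al.SelfNormalEngel

/-- The minimal condition on centralizers: there is no infinite strictly descending chain
`C_G(S_0) > C_G(S_1) > ...` of centralizers of subsets of `G`. -/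
def MinCentralizers (G : Type u) [Group G] : Prop :=
  ¬ ∃ S : ℕ → Set G, ∀ i : ℕ, Subgroup.centralizer (S (i + 1)) < Subgroup.centralizer (S i)

/-- The commutator `[a, b] = a⁻¹ b⁻¹ a b`. -/
def comm {G : Type u} [Group G] (a b : G) : G := a⁻¹ * b⁻¹ * a * b

/-- The commutator `[x, y, ..., y]` with `n` entries `y`. -/
def engelComm {G : Type u} [Group G] (x y : G) : ℕ → G
  | 0 => x
  | n + 1 => comm (engelComm x y n) y

/-- `g⁻¹ X g = X` for all elements `g` of `X`. (A normal subset has this for all `g` in `G`.) -/
def IsSelfNormal {G : Type u} [Group G] (X : Set G) : Prop :=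
  ∀ g ∈ X, (fun x => g⁻¹ * x * g) '' X = X

/-- `X` is an Engel subset: for all `x`, `y` in `X` there is an `n ≥ 1` (depending on the pair)
with `[x, y, ..., y] = 1`, `n` entries `y`. -/
def IsEngelSubset {G : Type u} [Group G] (X : Set G) : Prop :=
  ∀ x ∈ X, ∀ y ∈ X, ∃ n : ℕ, 1 ≤ n ∧ engelComm x y n = 1

/-- Locally nilpotent: every finitely generated subgroup is nilpotent. -/
def LocallyNilpotent (H : Type u) [Group H] : Prop :=
  ∀ K : Subgroup H, K.FG → Group.IsNilpotent K

/-- Hypercentral: every nontrivial quotient `H/N` has a nontrivial centre, that is, for every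
normal subgroup `N` other than `H` there is an element `z` outside `N` with `[z, h]` in `N` for
all `h`. -/
def Hypercentral (H : Type u) [Group H] : Prop :=
  ∀ N : Subgroup H, N.Normal → N ≠ ⊤ → ∃ z : H, z ∉ N ∧ ∀ h : H, comm z h ∈ N

open Pool.Agent.Lib.H73

lemma mc_of_min {G : Type u} [Group G] (h : MinCentralizers G) : MC G := by
  intro c hc
  by_contra hcon
  push Not at hcon
  choose g hg1 hg2 using hcon
  apply h
  let s : ℕ → ℕ := fun n => Nat.rec 0 (fun _ x => g x) n
  have hs : ∀ n, s (n + 1) = g (s n) := fun n => rfl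
  refine ⟨fun n => c (s n), fun i => ?_⟩
  show Subgroup.centralizer (c (s (i + 1))) < Subgroup.centralizer (c (s i))
  rw [hs]
  exact lt_of_le_of_ne (hc (hg1 (s i))) (hg2 (s i))

lemma mc_subgroup {G : Type u} [Group G] (h : MC G) (J : Subgroup G) : MC J := by
  intro c hc
  let T : ℕ → Set G := fun n => {x | ∃ i ≤ n, ∃ y ∈ c i, x = (y : G)}
  have hT : Antitone (fun n => Subgroup.centralizer (T n)) := by
    intro n m hnm
    apply Subgroup.centralizer_le
    rintro x ⟨i, hi, y, hy, rfl⟩
    exact ⟨i, hi.trans hnm, y, hy, rfl⟩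
  have hmem : ∀ n, ∀ x : J, x ∈ Subgroup.centralizer (c n) ↔
      (x : G) ∈ Subgroup.centralizer (T n) := by
    intro n x
    rw [Subgroup.mem_centralizer_iff, Subgroup.mem_centralizer_iff]
    constructor
    · rintro hx y ⟨i, hi, z, hz, rfl⟩
      have h1 : x ∈ Subgroup.centralizer (c i) := hc hi (Subgroup.mem_centralizer_iff.2 hx)
      have h2 := Subgroup.mem_centralizer_iff.1 h1 z hz
      exact congrArg (fun w : J => (w : G)) h2
    · intro hx y hy
      have h2 := hx (y : G) ⟨n, le_rfl, y, hy, rfl⟩
      exact Subtype.ext h2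
  obtain ⟨N, hN⟩ := h T hT
  refine ⟨N, fun n hn => ?_⟩
  ext x
  rw [hmem n x, hmem N x]
  have h3 : Subgroup.centralizer (T n) = Subgroup.centralizer (T N) := hN n hn
  rw [h3]

lemma en_iter {G : Type u} [Group G] (x y : G) (n : ℕ) : (en y)^[n] x = engelComm x y n := by
  induction n with
  | zero => rfl
  | succ n ih => rw [Function.iterate_succ_apply', ih]; rfl

lemma normalised {G : Type u} [Group G] {X : Set G} (hX : IsSelfNormal X) :
    ∀ g ∈ Subgroup.closure X, ∀ x ∈ X, g⁻¹ * x * g ∈ X ∧ g * x * g⁻¹ ∈ X := by
  intro g hg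
  induction hg using Subgroup.closure_induction with
  | mem g hg =>
    intro x hx
    have h0 := hX g hg
    constructor
    · have h1 : (fun x => g⁻¹ * x * g) x ∈ (fun x => g⁻¹ * x * g) '' X := ⟨x, hx, rfl⟩
      rw [h0] at h1
      exact h1
    · have h1 : x ∈ (fun x => g⁻¹ * x * g) '' X := by rw [h0]; exact hx
      obtain ⟨y, hy, hyx⟩ := h1
      have h2 : g * x * g⁻¹ = y := by
        rw [← hyx]
        group
      rw [h2]
      exact hy
  | one => intro x hx; simpa using hx
  | mul a b _ _ ha hb =>
    intro x hx
    refine ⟨?_, ?_⟩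
    · have := (hb _ (ha x hx).1).1
      simpa [mul_assoc] using this
    · have := (ha _ (hb x hx).2).2
      simpa [mul_assoc] using this
  | inv a _ ha =>
    intro x hx
    refine ⟨?_, ?_⟩
    · simpa using (ha x hx).2
    · simpa using (ha x hx).1

lemma ln_top {G : Type u} [Group G] (hMC : MC G) {X : Set G} (hX : IsSelfNormal X)
    (hE : IsEngelSubset X) : LN (⊤ : Subgroup (Subgroup.closure X)) := by
  let X' : Set (Subgroup.closure X) := {h | (h : G) ∈ X}
  have hX' : ∀ g : Subgroup.closure X, ∀ x ∈ X', g⁻¹ * x * g ∈ X' := by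
    intro g x hx
    exact (normalised hX g g.2 x hx).1
  have hval : ∀ x y : Subgroup.closure X, ∀ n : ℕ,
      ((engelComm x y n : Subgroup.closure X) : G) = engelComm (x : G) (y : G) n := by
    intro x y n
    induction n with
    | zero => rfl
    | succ n ih =>
      simp only [engelComm, comm, Subgroup.coe_mul, InvMemClass.coe_inv, ih]
  have hE' : ∀ x ∈ X', ∀ y ∈ X', ∃ n, (en y)^[n] x = 1 := by
    intro x hx y hy
    obtain ⟨n, _, hn⟩ := hE x hx y hy
    refine ⟨n, ?_⟩
    rw [en_iter]
    apply Subtype.ext
    rw [hval, hn]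
    rfl
  have hLN := LN_of_engel (mc_subgroup hMC (Subgroup.closure X)) hX' hE'
  have htop : Subgroup.closure X' = ⊤ := Subgroup.closure_closure_coe_preimage
  rw [htop] at hLN
  exact hLN

/-- Let `G` be a group with the minimal condition on centralizers and let `X` be an Engel subset of
`G` with `g⁻¹ X g = X` for all `g` in `X` (for example a normal Engel subset). Then the subgroup
generated by `X` is locally nilpotent and hypercentral. -/
theorem result :
    ∀ (G : Type u) [Group G], MinCentralizers G →
      ∀ X : Set G, IsSelfNormal X → IsEngelSubset X →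
        LocallyNilpotent (Subgroup.closure X) ∧ Hypercentral (Subgroup.closure X) := by
  intro G _ hG X hX hE
  have hMC := mc_of_min hG
  have hLN := ln_top hMC hX hE
  constructor
  · rintro K ⟨S, hS⟩
    have h1 := hLN (↑S) S.finite_toSet (fun x _ => Subgroup.mem_top x)
    rw [hS] at h1
    exact h1
  · intro N hN hne
    by_contra hcon
    push Not at hcon
    apply hne
    rw [eq_top_iff]
    intro u _
    have h1 := hcen_of_LN_top (mc_subgroup hMC (Subgroup.closure X)) hLN u
    induction h1 with
    | one => exact N.one_mem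
    | step u h ih =>
      by_contra hu
      obtain ⟨l, hl⟩ := hcon u hu
      exact hl (ih l (Set.mem_univ l) (Subgroup.mem_top _))

end Pool.Agent.Results.MP_a1472e_al.SelfNormalEngel
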